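import Pool.Agent.P.MP_7d29e8_ag.AllM

set_option autoImplicit false

open Pool.Agent.P.MP_7d29e8_ag
open scoped Classical

/-- Kottwitz sets of a reductive group over `ℚ_p` and of its inner twist by a basic element, for
arbitrary cocharacters: coordinates exist, and in any coordinates the sets correspond iff an
explicit criterion holds, which on every simple factor is an explicit list of shift vectors. -/
theorem Pool.Agent.Results.MP_7d29e8_ag.AllCocharacters.result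
    (p : ℕ) [Fact p.Prime] (K Ω : Type) [Field K] [Field Ω]
    [Algebra (WittVector p (AlgebraicClosure (ZMod p))) K]
    [IsFractionRing (WittVector p (AlgebraicClosure (ZMod p))) K] [Algebra K Ω] [IsAlgClosure K Ω]
    (σ : K ≃+* K) (hσ : ∀ o : WittVector p (AlgebraicClosure (ZMod p)),
      σ (algebraMap _ K o) = algebraMap _ K (WittVector.frobenius o))
    (s : Ω ≃+* Ω) (hs : ∀ a, s (algebraMap K Ω a) = algebraMap K Ω (σ a))
    {n n' : ℕ} (G : Subgroup (GL (Fin n) Ω)) (G' : Subgroup (GL (Fin n') Ω))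
    (hG : IsRed σ G) (hG' : IsRed σ G')
    (β : G) (hβ : Basic (WittVector p (AlgebraicClosure (ZMod p))) p σ G β.val.val)
    (ψ : G ≃* G') (hψ : Reg K ψ) (hψ' : Reg K ψ.symm)
    (hψs : ∀ g h : G, h.val.val = β.val.val * g.val.val.map s * (β⁻¹).val.val →
      (ψ h).val.val = (ψ g).val.val.map s)
    (μ : Ω → Matrix (Fin n) (Fin n) Ω) (μ' : Ω → Matrix (Fin n') (Fin n') Ω)
    (hμ : Coch G μ) (hμ' : Coch G' μ') :
    (∃ (ι M N : Type) (_ : AddCommGroup M) (_ : Module ℚ M) (_ : AddCommGroup N) (_ : Module ℚ N)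
      (P : RootPairing ι ℚ M N), Finite ι ∧ P.IsCrystallographic ∧ P.IsReduced ∧
      ∃ (b : P.Base) (ω : ι → M) (y : GL (Fin n) Ω) (wt : Fin n → M) (g₀ : GL (Fin n) Ω)
        (a₀ : P.Aut) (y' : GL (Fin n') Ω) (wt' : Fin n' → M) (g₀' : GL (Fin n') Ω) (a₀' : P.Aut)
        (ν₀ x₀ m m' : N), Coord (WittVector p (AlgebraicClosure (ZMod p))) p σ s G G' ψ μ μ'
          b ω y wt g₀ a₀ y' wt' g₀' a₀' ν₀ x₀ m m') ∧
    ∀ (ι M N : Type) [AddCommGroup M] [Module ℚ M] [AddCommGroup N] [Module ℚ N]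
      (P : RootPairing ι ℚ M N) [Finite ι] [P.IsCrystallographic] [P.IsReduced]
      (b : P.Base) (ω : ι → M) (y : GL (Fin n) Ω) (wt : Fin n → M) (g₀ : GL (Fin n) Ω)
      (a₀ : P.Aut) (y' : GL (Fin n') Ω) (wt' : Fin n' → M) (g₀' : GL (Fin n') Ω) (a₀' : P.Aut)
      (ν₀ x₀ m m' : N), Coord (WittVector p (AlgebraicClosure (ZMod p))) p σ s G G' ψ μ μ'
        b ω y wt g₀ a₀ y' wt' g₀' a₀' ν₀ x₀ m m' →
      ∀ Γ : Subgroup P.Aut, Γ = Gam K P b y wt a₀ →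
      ((fun g => ψ (g * β⁻¹)) ''
          Kot (WittVector p (AlgebraicClosure (ZMod p))) P p σ G b y wt Γ m =
          Kot (WittVector p (AlgebraicClosure (ZMod p))) P p σ G' b y' wt'
            (Gam K P b y' wt' a₀') m' ↔
        (∃ z, Kap (WittVector p (AlgebraicClosure (ZMod p))) K P p G y wt β.val z ∧
            z - (m - m') ∈ rel Γ (lat P wt)) ∧
          ∀ i ∈ b.support,
            Crit b Γ ω (ν₀ - x₀) (ν₀ - x₀ + (m - m')) m m' i) ∧
      ∀ i ∈ b.support, ∃ (T : Type) (_ : Fintype T) (r : ℕ) (e : T × Fin r → ι)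
        (C : Matrix (Fin r) (Fin r) ℤ) (R : Fin r → Fin r → Prop)
        (E : (Fin r → ℚ) → Fin r → ℚ),
        i ∈ Set.range e ∧ Fct b Γ e C R ∧ Shift r C R E ∧
        ((∀ q, Crit b Γ ω (ν₀ - x₀) (ν₀ - x₀ + (m - m')) m m' (e q)) ↔
          ∀ k, ∑ l with R k l, ∑ t, P.root' (e (t, l)) (m - m') =
            E (fun j => ∑ t, P.toLinearMap (ω (e (t, j))) (ν₀ - x₀)) k -
            E (fun j => ∑ t, P.toLinearMap (ω (e (t, j))) (ν₀ - x₀ + (m - m'))) k) := by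
  have := charZero_K p K
  have := charZero_of_injective_algebraMap (algebraMap K Ω).injective
  constructor
  · obtain ⟨ι, M, N, _, _, _, _, P, h1, h2, h3, b, ω, y, wt, g₀, a₀, y', wt', g₀', a₀', ν₀, x₀,
      m, m', c⟩ := exists_coord hσ hs hG hG' β ψ hψ hψ' hψs (All.minu_one G) (All.minu_one G')
    obtain ⟨u, hu, hu1, hu2⟩ := All.coch_rep (c.fr.ds hG) b hμ
    obtain ⟨u', hu', hu1', hu2'⟩ := All.coch_rep (c.fr'.ds hG') b hμ'
    exact ⟨ι, M, N, _, _, _, _, P, h1, h2, h3, b, ω, y, wt, g₀, a₀, y', wt', g₀', a₀', ν₀, x₀,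
      u, u', ⟨c.hω, c.hω', c.fr, c.fr', c.nu, c.ka, c.hL, c.hco, ⟨hu, c.hL ▸ hu'⟩,
        fun i hi => ⟨hu1 i hi, hu1' i hi⟩, hu2, hu2'⟩⟩
  rintro ι M N _ _ _ _ P _ _ _ b ω y wt g₀ a₀ y' wt' g₀' a₀' ν₀ x₀ m m' c _ rfl
  have D := c.fr.ds hG
  obtain ⟨ν, h1, h2⟩ := basic_nu D b hβ
  obtain ⟨H1, H2⟩ := All.groups_all p K Ω σ hσ s hs P b ω c.hω c.hω' G G' hG hG' y wt g₀
    a₀ c.fr y' wt' g₀' a₀' c.fr' ν₀ x₀ c.nu c.ka β ν h1 h2 ψ hψ hψ' hψs c.hL c.hco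
    m m' c.mem.1 c.mem.2 (fun i hi => (c.dom i hi).1) (fun i hi => (c.dom i hi).2)
  refine ⟨H1, fun i hi => ?_⟩
  obtain ⟨T, _, r, e, C, R, h3, h4, h5⟩ := exists_fct b (c.fr.stab) hi
  have : Nonempty T := ⟨h3.choose.1⟩
  obtain ⟨E, hE⟩ := All.lst_shift h5
  exact ⟨T, _, r, e, C, R, E, h3, h4, hE, H2 T r e C R E h4 (All.shift_good hE)⟩
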