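import Pool.Agent.P.MP_7d29e8_ag.HGroups
import Pool.Agent.P.MP_7d29e8_ag.FL
import Pool.Agent.P.MP_7d29e8_ag.FK7
import Pool.Agent.P.MP_7d29e8_ag.KQ

set_option autoImplicit false

open Pool.Agent.P.MP_7d29e8_ag

/-- Kottwitz sets of a reductive group over `ℚ_p` and of its inner twist by a basic element:
coordinates exist, and in any coordinates the sets correspond iff an explicit criterion holds,
which is solved on every simple factor. -/
theorem Pool.Agent.Results.MP_7d29e8_ag.Full.result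
    (p : ℕ) [Fact p.Prime] (K Ω : Type) [Field K] [Field Ω]
    [Algebra (WittVector p (AlgebraicClosure (ZMod p))) K]
    [IsFractionRing (WittVector p (AlgebraicClosure (ZMod p))) K] [Algebra K Ω] [IsAlgClosure K Ω]
    (σ : K ≃+* K) (hσ : ∀ o : WittVector p (AlgebraicClosure (ZMod p)),
      σ (algebraMap _ K o) = algebraMap _ K (WittVector.frobenius o))
    (s : Ω ≃+* Ω) (hs : ∀ a, s (algebraMap K Ω a) = algebraMap K Ω (σ a))
    {n n' : ℕ} (G : Subgroup (GL (Fin n) Ω)) (G' : Subgroup (GL (Fin n') Ω))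
    (hG : IsRed σ G) (hG' : IsRed σ G')
    (β : G) (hβ : Basic (WittVector p (AlgebraicClosure (ZMod p))) p σ G β.val.val)
    (ψ : G ≃* G') (hψ : Reg K ψ) (hψ' : Reg K ψ.symm)
    (hψs : ∀ g h : G, h.val.val = β.val.val * g.val.val.map s * (β⁻¹).val.val →
      (ψ h).val.val = (ψ g).val.val.map s)
    (μ : Ω → Matrix (Fin n) (Fin n) Ω) (μ' : Ω → Matrix (Fin n') (Fin n') Ω)
    (hμ : Minu G μ) (hμ' : Minu G' μ') :
    (∃ (ι M N : Type) (_ : AddCommGroup M) (_ : Module ℚ M) (_ : AddCommGroup N) (_ : Module ℚ N)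
      (P : RootPairing ι ℚ M N), Finite ι ∧ P.IsCrystallographic ∧ P.IsReduced ∧
      ∃ (b : P.Base) (ω : ι → M) (y : GL (Fin n) Ω) (wt : Fin n → M) (g₀ : GL (Fin n) Ω)
        (a₀ : P.Aut) (y' : GL (Fin n') Ω) (wt' : Fin n' → M) (g₀' : GL (Fin n') Ω) (a₀' : P.Aut)
        (ν₀ x₀ m m' : N), Coord (WittVector p (AlgebraicClosure (ZMod p))) p σ s G G' ψ μ μ'
          b ω y wt g₀ a₀ y' wt' g₀' a₀' ν₀ x₀ m m') ∧
    ∀ (ι M N : Type) [AddCommGroup M] [Module ℚ M] [AddCommGroup N] [Module ℚ N]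
      (P : RootPairing ι ℚ M N) [Finite ι] [P.IsCrystallographic] [P.IsReduced]
      (b : P.Base) (ω : ι → M) (y : GL (Fin n) Ω) (wt : Fin n → M) (g₀ : GL (Fin n) Ω)
      (a₀ : P.Aut) (y' : GL (Fin n') Ω) (wt' : Fin n' → M) (g₀' : GL (Fin n') Ω) (a₀' : P.Aut)
      (ν₀ x₀ m m' : N), Coord (WittVector p (AlgebraicClosure (ZMod p))) p σ s G G' ψ μ μ'
        b ω y wt g₀ a₀ y' wt' g₀' a₀' ν₀ x₀ m m' →
      ∀ Γ : Subgroup P.Aut, Γ = Gam K P b y wt a₀ →
      ((fun g => ψ (g * β⁻¹)) ''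
          Kot (WittVector p (AlgebraicClosure (ZMod p))) P p σ G b y wt Γ m =
          Kot (WittVector p (AlgebraicClosure (ZMod p))) P p σ G' b y' wt'
            (Gam K P b y' wt' a₀') m' ↔
        (∃ z, Kap (WittVector p (AlgebraicClosure (ZMod p))) K P p G y wt β.val z ∧
            z - (m - m') ∈ rel Γ (lat P wt)) ∧
          ∀ i ∈ b.support,
            Crit b Γ ω (ν₀ - x₀) (ν₀ - x₀ + (m - m')) m m' i) ∧
      ∀ i ∈ b.support, ∃ (T : Type) (_ : Fintype T) (r : ℕ) (e : T × Fin r → ι)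
        (C : Matrix (Fin r) (Fin r) ℤ) (R : Fin r → Fin r → Prop),
        i ∈ Set.range e ∧ Fct b Γ e C R ∧
        Row r C R (fun k => ∑ t, P.root' (e (t, k)) (m - m'))
          (fun k => ∑ t, P.toLinearMap (ω (e (t, k))) (ν₀ - x₀))
          (fun k => ∑ t, P.toLinearMap (ω (e (t, k))) (ν₀ - x₀ + (m - m')))
          (∀ q, Crit b Γ ω (ν₀ - x₀) (ν₀ - x₀ + (m - m')) m m' (e q)) := by
  refine ⟨exists_coord hσ hs hG hG' β ψ hψ hψ' hψs hμ hμ', ?_⟩
  rintro ι M N _ _ _ _ P _ _ _ b ω y wt g₀ a₀ y' wt' g₀' a₀' ν₀ x₀ m m' c _ rfl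
  have := charZero_K p K
  have := charZero_of_injective_algebraMap (algebraMap K Ω).injective
  have D := c.fr.ds hG
  have D' := c.fr'.ds hG'
  obtain ⟨ν, h1, h2⟩ := basic_nu D b hβ
  obtain ⟨H1, H2⟩ := groups_core p K Ω σ hσ s hs P b ω c.hω c.hω' G G' hG hG' y wt g₀
    a₀ c.fr y' wt' g₀' a₀' c.fr' ν₀ x₀ c.nu c.ka β ν h1 h2 ψ hψ hψ' hψs c.hL c.hco
    m m' c.mem.1 c.mem.2 (fun i hi => (c.dom i hi).1) (fun i hi => (c.dom i hi).2)
    (minu_le D hμ c.mem.1 c.rep) (minu_le D' hμ' (c.hL ▸ c.mem.2) c.rep')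
  refine ⟨H1, fun i hi => ?_⟩
  obtain ⟨T, _, r, e, C, R, h3, h4, h5⟩ := exists_fct b (c.fr.stab) hi
  have : Nonempty T := ⟨h3.choose.1⟩
  exact ⟨T, _, r, e, C, R, h3, h4, h5.row (H2 T r e C R h4.inj h4.mem h4.car h4.orth h4.orbit)⟩

namespace Pool.Agent.Results.MP_7d29e8_ag.Full

variable {p : ℕ} [Fact p.Prime] {K Ω : Type} [Field K] [Field Ω]
  [Algebra (WittVector p (AlgebraicClosure (ZMod p))) K]
  [IsFractionRing (WittVector p (AlgebraicClosure (ZMod p))) K] [Algebra K Ω] [IsAlgClosure K Ω]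
  {σ : K ≃+* K} (hσ : ∀ o : WittVector p (AlgebraicClosure (ZMod p)),
    σ (algebraMap _ K o) = algebraMap _ K (WittVector.frobenius o))
  {s : Ω ≃+* Ω} (hs : ∀ a, s (algebraMap K Ω a) = algebraMap K Ω (σ a))
  {n : ℕ} {G : Subgroup (GL (Fin n) Ω)} (hG : IsRed σ G)
  {ι M N : Type} [AddCommGroup M] [Module ℚ M] [AddCommGroup N] [Module ℚ N]
  {P : RootPairing ι ℚ M N} [Finite ι] [P.IsCrystallographic] [P.IsReduced] {b : P.Base}
  {y g₀ : GL (Fin n) Ω} {wt : Fin n → M} {a₀ : P.Aut} (hF : Frame K P G b y wt s g₀ a₀)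
include hσ hs hG hF

/-- `Kap` is defined exactly on the `K`-rational points of `G`. -/
theorem kap_defined_iff (g : GL (Fin n) Ω) :
    (∃ z, Kap (WittVector p (AlgebraicClosure (ZMod p))) K P p G y wt g z) ↔
      g ∈ G ∧ ∃ g₁ : Matrix (Fin n) (Fin n) K, g.val = g₁.map (algebraMap K Ω) :=
  (kap_main hσ hs hG hF).1 g

/-- `Kap` is single valued modulo `rel`, already for the image of the Galois group of `K`. -/
theorem kap_single_valued (g : GL (Fin n) Ω) (z z' : N)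
    (h : Kap (WittVector p (AlgebraicClosure (ZMod p))) K P p G y wt g z)
    (h' : Kap (WittVector p (AlgebraicClosure (ZMod p))) K P p G y wt g z') :
    z - z' ∈ rel (Gam K P b y wt 1) (lat P wt) ∧ z - z' ∈ rel (Gam K P b y wt a₀) (lat P wt) :=
  ⟨(kap_main hσ hs hG hF).2.1 g z z' h h', rel_one_le ((kap_main hσ hs hG hF).2.1 g z z' h h')⟩

/-- The values of `Kap` are exactly the cocharacters. -/
theorem kap_value_iff (x : N) :
    (∃ g, Kap (WittVector p (AlgebraicClosure (ZMod p))) K P p G y wt g x) ↔ x ∈ lat P wt :=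
  (kap_main hσ hs hG hF).2.2 x

/-- `Kot` is a union of `σ`-conjugacy classes of `G(K)`. -/
theorem kot_sigma_conj (μ : N) (g h k : G) (k₁ : Matrix (Fin n) (Fin n) K)
    (hk : k.val.val = k₁.map (algebraMap K Ω))
    (e : h.val.val * k.val.val.map s = k.val.val * g.val.val)
    (hg : g ∈ Kot (WittVector p (AlgebraicClosure (ZMod p))) P p σ G b y wt (Gam K P b y wt a₀) μ) :
    h ∈ Kot (WittVector p (AlgebraicClosure (ZMod p))) P p σ G b y wt (Gam K P b y wt a₀) μ :=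
  kot_conj hσ hs hG hF μ g h k k₁ hk e hg

/-- Every element of `G(K)` has a dominant Newton point. -/
theorem newton_point_exists (g : GL (Fin n) Ω) (hg : g ∈ G) (g₁ : Matrix (Fin n) (Fin n) K)
    (e : g.val = g₁.map (algebraMap K Ω)) : ∃ (k : G) (ν : N),
      Newton (WittVector p (AlgebraicClosure (ZMod p))) p σ g.val
        (k.val.val * dd P y wt ν * (k⁻¹).val.val) ∧ ∀ i ∈ b.support, 0 ≤ P.root' i ν :=
  newton_ex hσ hs hG hF g hg g₁ e

/-- The dominant Newton point is unique. -/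
theorem newton_point_unique (g : GL (Fin n) Ω) (k k' : G) (ν ν' : N)
    (h : Newton (WittVector p (AlgebraicClosure (ZMod p))) p σ g.val
      (k.val.val * dd P y wt ν * (k⁻¹).val.val))
    (h' : Newton (WittVector p (AlgebraicClosure (ZMod p))) p σ g.val
      (k'.val.val * dd P y wt ν' * (k'⁻¹).val.val))
    (d : ∀ i ∈ b.support, 0 ≤ P.root' i ν) (d' : ∀ i ∈ b.support, 0 ≤ P.root' i ν') : ν = ν' :=
  newton_uniq hσ hs hG hF g k k' ν ν' h h' d d'

omit hF in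
/-- For every basic `β` the inner form `G_β` exists as a matrix group, with an isomorphism `ψ` as
in the hypotheses of the main theorem. -/
theorem inner_form_exists (β : G)
    (hβ : Basic (WittVector p (AlgebraicClosure (ZMod p))) p σ G β.val.val) :
    ∃ (n' : ℕ) (G' : Subgroup (GL (Fin n') Ω)) (ψ : G ≃* G'), IsRed σ G' ∧ Reg K ψ ∧
      Reg K ψ.symm ∧ ∀ g h : G, h.val.val = β.val.val * g.val.val.map s * (β⁻¹).val.val →
        (ψ h).val.val = (ψ g).val.val.map s :=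
  inner_ex hσ hs hG β hβ

omit hG hF in
/-- The hypotheses of the main theorem hold for `GL₂` with a basic element of slope one half. -/
theorem example_gl_two : IsRed σ (⊤ : Subgroup (GL (Fin 2) Ω)) ∧
    Minu (⊤ : Subgroup (GL (Fin 2) Ω)) (fun t => Matrix.diagonal ![t, 1]) ∧
    ∃ β : (⊤ : Subgroup (GL (Fin 2) Ω)), β.val.val = !![0, (p : Ω); 1, 0] ∧
      Basic (WittVector p (AlgebraicClosure (ZMod p))) p σ ⊤ β.val.val ∧
      Newton (WittVector p (AlgebraicClosure (ZMod p))) p σ β.val.val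
        (Matrix.diagonal fun _ => 1 / 2) :=
  gl_two hσ hs

omit hG hF in
/-- An instance where the two sets correspond: `GL₂` with the trivial cocharacter, and its inner
form by the basic element of slope one half with the image of `diag (t, 1)`. -/
theorem example_nontrivial : ∃ (β : (⊤ : Subgroup (GL (Fin 2) Ω))) (n' : ℕ)
    (G' : Subgroup (GL (Fin n') Ω)) (ψ : (⊤ : Subgroup (GL (Fin 2) Ω)) ≃* G')
    (μ' : Ω → Matrix (Fin n') (Fin n') Ω), β.val.val = !![0, (p : Ω); 1, 0] ∧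
    IsRed σ (⊤ : Subgroup (GL (Fin 2) Ω)) ∧ IsRed σ G' ∧
    Basic (WittVector p (AlgebraicClosure (ZMod p))) p σ ⊤ β.val.val ∧ Reg K ψ ∧ Reg K ψ.symm ∧
    (∀ g h : (⊤ : Subgroup (GL (Fin 2) Ω)),
      h.val.val = β.val.val * g.val.val.map s * (β⁻¹).val.val →
        (ψ h).val.val = (ψ g).val.val.map s) ∧
    Minu (⊤ : Subgroup (GL (Fin 2) Ω)) (fun _ => 1) ∧ Minu G' μ' ∧
    (∀ t ≠ 0, ∀ g : (⊤ : Subgroup (GL (Fin 2) Ω)),
      g.val.val = Matrix.diagonal ![t, 1] → μ' t = (ψ g).val.val) ∧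
    ∀ (ι M N : Type) [AddCommGroup M] [Module ℚ M] [AddCommGroup N] [Module ℚ N]
      (P : RootPairing ι ℚ M N) [Finite ι] [P.IsCrystallographic] [P.IsReduced]
      (b : P.Base) (ω : ι → M) (y : GL (Fin 2) Ω) (wt : Fin 2 → M) (g₀ : GL (Fin 2) Ω)
      (a₀ : P.Aut) (y' : GL (Fin n') Ω) (wt' : Fin n' → M) (g₀' : GL (Fin n') Ω) (a₀' : P.Aut)
      (ν₀ x₀ m m' : N), Coord (WittVector p (AlgebraicClosure (ZMod p))) p σ s ⊤ G' ψ
        (fun _ => 1) μ' b ω y wt g₀ a₀ y' wt' g₀' a₀' ν₀ x₀ m m' →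
      (fun g => ψ (g * β⁻¹)) ''
          Kot (WittVector p (AlgebraicClosure (ZMod p))) P p σ ⊤ b y wt (Gam K P b y wt a₀) m =
        Kot (WittVector p (AlgebraicClosure (ZMod p))) P p σ G' b y' wt'
          (Gam K P b y' wt' a₀') m' := by
  obtain ⟨h1, -, β, h2, h3, -⟩ := gl_two hσ hs
  obtain ⟨n', G', ψ, h4, h5, h6, h7⟩ := inner_ex hσ hs h1 β h3
  obtain ⟨h8, μ', h9, h10⟩ := two_minu hσ hs h4 β h5 h6 h7
  exact ⟨β, n', G', ψ, μ', h2, h1, h4, h3, h5, h6, h7, h8, h9, h10,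
    fun ι M N _ _ _ _ P _ _ _ b ω y wt g₀ a₀ y' wt' g₀' a₀' ν₀ x₀ m m' c =>
      ((result p K Ω σ hσ s hs ⊤ G' h1 h4 β h3 ψ h5 h6 h7 _ μ' h8 h9).2 ι M N P b ω y wt g₀ a₀
        y' wt' g₀' a₀' ν₀ x₀ m m' c _ rfl).1.mpr (two_crit hσ hs h10 h2 c _)⟩

end Pool.Agent.Results.MP_7d29e8_ag.Full
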